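import Pool.Agent.Lib.MP_55c1e7_ag.CG.ProjChart

/-!
# Sections over `D_+(f)` and points with values in a field
-/

open CategoryTheory AlgebraicGeometry HomogeneousLocalization

universe u

namespace MP55c1e7

namespace CG

variable {A : Type u} {σ : Type*} [CommRing A] [SetLike σ A] [AddSubgroupClass σ A]
  {𝒜 : ℕ → σ} [GradedRing 𝒜] {K : Type u} [CommRing K]

/-- The map on sections given by a point with values in `K`. -/
noncomputable def secPoint {X : Scheme.{u}} (φ : Spec (.of K) ⟶ X) (U : X.Opens)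
    (hU : ⊤ ≤ φ ⁻¹ᵁ U) : Γ(X, U) →+* K :=
  (φ.appLE U ⊤ hU ≫ (Scheme.ΓSpecIso (.of K)).hom).hom

theorem secPoint_res {X : Scheme.{u}} (φ : Spec (.of K) ⟶ X) {U V : X.Opens}
    (hU : ⊤ ≤ φ ⁻¹ᵁ U) (hV : ⊤ ≤ φ ⁻¹ᵁ V) (i : V ≤ U) (s : Γ(X, U)) :
    secPoint φ V hV (X.presheaf.map (homOfLE i).op s) = secPoint φ U hU s := by
  have h1 : X.presheaf.map (homOfLE i).op ≫ φ.appLE V ⊤ hV = φ.appLE U ⊤ hU :=
    Scheme.Hom.map_appLE _ _ _
  unfold secPoint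
  rw [← h1]
  rfl

theorem appLE_comp_ι {X Y : Scheme.{u}} {U : X.Opens} (g : Y ⟶ U.toScheme)
    (h : ⊤ ≤ (g ≫ U.ι) ⁻¹ᵁ U) : (g ≫ U.ι).appLE U ⊤ h = U.topIso.inv ≫ g.appTop := by
  rw [Scheme.Hom.comp_appLE, Scheme.Opens.topIso_inv]
  have h1 : (⊤ : U.toScheme.Opens) ≤ U.ι ⁻¹ᵁ U := fun x _ => x.2
  rw [← Scheme.Hom.map_appLE g (U := ⊤) (V := ⊤) le_top (homOfLE h1).op]
  have h2 : g.appLE ⊤ ⊤ le_top = g.appTop := (Scheme.Hom.app_eq_appLE (f := g) (U := ⊤)).symm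
  rw [h2, ← Category.assoc]
  congr 1
  rw [Scheme.Opens.ι_app]
  exact (X.presheaf.map_comp _ _).symm

theorem awayToSection_point {d : ℕ} {f : A} (hf : f ∈ 𝒜 d) (hd : 0 < d) (ψ : Away 𝒜 f →+* K)
    (h : ⊤ ≤ (Spec.map (CommRingCat.ofHom ψ) ≫ Proj.awayι 𝒜 f hf hd) ⁻¹ᵁ Proj.basicOpen 𝒜 f) :
    (secPoint (Spec.map (CommRingCat.ofHom ψ) ≫ Proj.awayι 𝒜 f hf hd) (Proj.basicOpen 𝒜 f) h).comp
      (Proj.awayToSection 𝒜 f).hom = ψ := by
  let g : Spec (.of K) ⟶ (Proj.basicOpen 𝒜 f).toScheme :=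
    Spec.map (CommRingCat.ofHom ψ) ≫ (Proj.basicOpenIsoSpec 𝒜 f hf hd).inv
  have h1 : g ≫ Proj.basicOpenToSpec 𝒜 f = Spec.map (CommRingCat.ofHom ψ) := by
    rw [← Proj.basicOpenIsoSpec_hom 𝒜 f hf hd, Category.assoc, Iso.inv_hom_id, Category.comp_id]
  have h2 := congrArg (fun t => t.appTop ≫ (Scheme.ΓSpecIso (.of K)).hom) h1
  simp only [Scheme.Hom.comp_appTop, Category.assoc] at h2
  rw [Scheme.ΓSpecIso_naturality] at h2
  have h3 := Proj.basicOpenToSpec_app_top 𝒜 f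
  change (Proj.basicOpenToSpec 𝒜 f).appTop = _ at h3
  rw [h3, Category.assoc, Category.assoc] at h2
  have h4 := (cancel_epi _).mp h2
  have h5 : Spec.map (CommRingCat.ofHom ψ) ≫ Proj.awayι 𝒜 f hf hd =
      g ≫ (Proj.basicOpen 𝒜 f).ι := by
    rw [Category.assoc]
    rfl
  unfold secPoint
  have h6 : (Proj.awayToSection 𝒜 f) ≫ (Spec.map (CommRingCat.ofHom ψ) ≫
      Proj.awayι 𝒜 f hf hd).appLE (Proj.basicOpen 𝒜 f) ⊤ h ≫ (Scheme.ΓSpecIso (.of K)).hom =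
      CommRingCat.ofHom ψ := by
    refine Eq.trans ?_ h4
    congr 1
    rw [← Category.assoc (Scheme.Opens.topIso _).inv, ← appLE_comp_ι g (by rw [← h5]; exact h)]
    simp only [h5]
  exact congrArg CommRingCat.Hom.hom h6

theorem secPoint_injective {d : ℕ} {f : A} (hf : f ∈ 𝒜 d) (hd : 0 < d) (ψ : Away 𝒜 f →+* K)
    (h) (hψ : Function.Injective ψ) :
    Function.Injective (secPoint (Spec.map (CommRingCat.ofHom ψ) ≫ Proj.awayι 𝒜 f hf hd)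
      (Proj.basicOpen 𝒜 f) h) := by
  have h1 := awayToSection_point hf hd ψ h
  have h2 : Function.Bijective (Proj.awayToSection 𝒜 f) := by
    have := (Proj.basicOpenIsoAway 𝒜 f hf hd).commRingCatIsoToRingEquiv.bijective
    exact this
  intro a b hab
  obtain ⟨a', rfl⟩ := h2.2 a
  obtain ⟨b', rfl⟩ := h2.2 b
  have h3 : ψ a' = ψ b' :=
    ((RingHom.congr_fun h1 a').symm.trans hab).trans (RingHom.congr_fun h1 b')
  rw [hψ h3]

theorem secPoint_range {K : Type u} [Field K] {d : ℕ} {f : A} (hf : f ∈ 𝒜 d) (hd : 0 < d)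
    (ψ : Away 𝒜 f →+* K) (h) (x : K) :
    x ∈ (secPoint (Spec.map (CommRingCat.ofHom ψ) ≫ Proj.awayι 𝒜 f hf hd)
      (Proj.basicOpen 𝒜 f) h).range ↔ ∃ a, ψ a = x := by
  have h1 := awayToSection_point hf hd ψ h
  have h2 : Function.Bijective (Proj.awayToSection 𝒜 f) := by
    have := (Proj.basicOpenIsoAway 𝒜 f hf hd).commRingCatIsoToRingEquiv.bijective
    exact this
  constructor
  · rintro ⟨a, rfl⟩
    obtain ⟨a', rfl⟩ := h2.2 a
    exact ⟨a', (RingHom.congr_fun h1 a').symm⟩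
  · rintro ⟨a, rfl⟩
    exact ⟨Proj.awayToSection 𝒜 f a, RingHom.congr_fun h1 a⟩

end CG

end MP55c1e7
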