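import Pool.Agent.Lib.MP_55c1e7_ag.CG.Model
import Pool.Agent.Lib.MP_55c1e7_ag.CG.Section
import Pool.Agent.Lib.MP_55c1e7_ag.Cech

/-!
# The projective model is a charted scheme
-/

open Polynomial CategoryTheory AlgebraicGeometry HomogeneousLocalization

universe u

namespace MP55c1e7

namespace CG

section

variable (R : Type u) {K : Type u} [CommRing R] [Field K] [Algebra R K] {ι : Type} (h : ι → K)

theorem awayMapG_injective (i : ι) (f : lalg R h)
    (hf : IsUnit ((levi R h i : lalg R h →+* K) f)) (hi : h i ≠ 0)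
    {d : ℕ} (hd : f ∈ lgrad R h d) : Function.Injective (awayMapG R h i f hf) := by
  refine (injective_iff_map_eq_zero _).mpr fun z hz => ?_
  obtain ⟨n, x, hx, rfl⟩ := Away.mk_surjective (lgrad R h) hd z
  rw [awayMapG_mk, div_eq_zero_iff] at hz
  have h0 : levi R h i f ≠ 0 := hf.ne_zero
  have h1 := levi_inj R h hi hx (hz.resolve_right (pow_ne_zero _ h0))
  subst h1
  ext
  rw [Away.val_mk, Localization.mk_zero, HomogeneousLocalization.val_zero]

theorem awayMapG_mul_comp_awayMap {i : ι} (hi : h i ≠ 0) {g : lalg R h} {e : ℕ}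
    (hg : g ∈ lgrad R h e)
    (hf : IsUnit ((levi R h i : lalg R h →+* K) (lgen R h i * g))) :
    (awayMapG R h i (lgen R h i * g) hf).comp
      (awayMap (lgrad R h) hg rfl) = awayMapK R h hi := by
  refine RingHom.ext fun z => ?_
  have h0 : levi R h i (lgen R h i * g) ≠ 0 := hf.ne_zero
  rw [map_mul, levi_lgen, div_self hi, one_mul] at h0
  obtain ⟨n, x, hx, rfl⟩ := Away.mk_surjective (lgrad R h) (lgen_mem R h i) z
  rw [RingHom.comp_apply, awayMap_mk, awayMapG_mk, awayMapK_mk, map_mul, map_mul, map_pow,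
    levi_lgen, div_self hi, one_mul]
  rw [mul_div_assoc, div_self (pow_ne_zero _ h0), mul_one]

theorem genι_eq_mul {i : ι} (hi : h i ≠ 0) {g : lalg R h} {e : ℕ}
    (hg : g ∈ lgrad R h e)
    (hf : IsUnit ((levi R h i : lalg R h →+* K) (lgen R h i * g))) :
    genι R h hi = Spec.map (CommRingCat.ofHom (awayMapG R h i (lgen R h i * g) hf)) ≫
      Proj.awayι (lgrad R h) (lgen R h i * g)
        (SetLike.mul_mem_graded (lgen_mem R h i) hg) (by omega) := by
  have e1 := Proj.SpecMap_awayMap_awayι (lgrad R h) (lgen_mem R h i) one_pos hg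
    (x := lgen R h i * g) rfl
  rw [genι_eq_awayι, ← awayMapG_mul_comp_awayMap R h hi hg hf, CommRingCat.ofHom_comp,
    Spec.map_comp, Category.assoc, e1]

theorem genι_toSpec {i : ι} (hi : h i ≠ 0) :
    genι R h hi ≫ PM.toSpec R h = Spec.map (CommRingCat.ofHom (algebraMap R K)) := by
  rw [genι, Category.assoc, chartι_toSpec, ← Spec.map_comp, ← CommRingCat.ofHom_comp]
  rfl

end

section

variable (k : Type) {K : Type} [Field k] [Field K] [Algebra k K] {ι : Type} (h : ι → K)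
  {Lam : Type} (I : Lam → ι)

/-- The product of the coordinates in `S`. -/
noncomputable def prodS (S : Finset Lam) : lalg k h := ∏ l ∈ S, lgen k h (I l)

theorem prodS_mem (S : Finset Lam) : prodS k h I S ∈ lgrad k h S.card := by
  have h1 := SetLike.prod_mem_graded (lgrad k h) (F := S) (fun _ => 1)
    (g := fun l => lgen k h (I l)) (fun l _ => lgen_mem k h (I l))
  rw [Finset.sum_const, smul_eq_mul, mul_one] at h1
  exact h1

theorem levi_prodS (i : ι) (S : Finset Lam) :
    levi k h i (prodS k h I S) = ∏ l ∈ S, h (I l) / h i := by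
  rw [prodS, map_prod]
  exact Finset.prod_congr rfl fun l _ => levi_lgen k h i (I l)

theorem isUnit_levi_prodS (hI : ∀ l, h (I l) ≠ 0) (l0 : Lam) (S : Finset Lam) :
    IsUnit ((levi k h (I l0) : lalg k h →+* K) (prodS k h I S)) := by
  change IsUnit (levi k h (I l0) (prodS k h I S))
  rw [levi_prodS]
  exact (Finset.prod_ne_zero_iff.mpr fun l _ => div_ne_zero (hI l) (hI l0)).isUnit

theorem interV_eq (S : BadRed.NF Lam) :
    BadRed.interV (fun l => PM.basicOpen k h (I l)) S = Proj.basicOpen (lgrad k h) (prodS k h I S.1) := by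
  classical
  obtain ⟨S, hS⟩ := S
  change S.inf (fun l => PM.basicOpen k h (I l)) = Proj.basicOpen (lgrad k h) (prodS k h I S)
  clear hS
  induction S using Finset.induction_on with
  | empty =>
    rw [Finset.inf_empty, prodS, Finset.prod_empty, Proj.basicOpen_one]
  | insert a S ha ih =>
    rw [Finset.inf_insert, prodS, Finset.prod_insert ha, Proj.basicOpen_mul, ih]
    rfl

/-- The range of `awayMapG` as a subalgebra. -/
noncomputable def rangeG (i : ι) (f : lalg k h)
    (hf : IsUnit ((levi k h i : lalg k h →+* K) f)) {d : ℕ} (hd : f ∈ lgrad k h d) :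
    Subalgebra k K where
  carrier := {x | ∃ a, awayMapG k h i f hf a = x}
  mul_mem' := by
    rintro _ _ ⟨a, rfl⟩ ⟨b, rfl⟩
    exact ⟨a * b, map_mul _ _ _⟩
  add_mem' := by
    rintro _ _ ⟨a, rfl⟩ ⟨b, rfl⟩
    exact ⟨a + b, map_add _ _ _⟩
  algebraMap_mem' r := by
    refine ⟨Away.mk (lgrad k h) hd 0 (algebraMap k _ r)
      (by rw [zero_smul]; exact SetLike.algebraMap_mem_graded (lgrad k h) r), ?_⟩
    rw [awayMapG_mk, pow_zero, div_one]
    exact (levi k h i).commutes r

theorem mem_rangeG {i : ι} {f : lalg k h}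
    {hf : IsUnit ((levi k h i : lalg k h →+* K) f)} {d : ℕ} {hd : f ∈ lgrad k h d} {x : K} :
    x ∈ rangeG k h i f hf hd ↔ ∃ a, awayMapG k h i f hf a = x := Iff.rfl

theorem mem_range_awayMapG (hI : ∀ l, h (I l) ≠ 0) {l0 : Lam} (S : BadRed.NF Lam) (hl : l0 ∈ S.1)
    (x : K) :
    (∃ a, awayMapG k h (I l0) (prodS k h I S.1) (isUnit_levi_prodS k h I hI l0 S.1) a = x) ↔
      x ∈ BadRed.cechRing (fun l => chart k h (I l)) S := by
  classical
  constructor
  · rintro ⟨a, rfl⟩
    obtain ⟨n, x, hx, rfl⟩ := Away.mk_surjective (lgrad k h) (prodS_mem k h I S.1) a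
    rw [awayMapG_mk, levi_prodS, div_eq_mul_inv, ← inv_pow, ← Finset.prod_inv_distrib]
    refine mul_mem (BadRed.le_cechRing _ S hl (levi_mem k h (I l0) x))
      (pow_mem (prod_mem fun l hl' => ?_) n)
    rw [inv_div]
    exact BadRed.le_cechRing _ S hl' (Algebra.subset_adjoin ⟨I l0, rfl⟩)
  · intro hx
    have hle : BadRed.cechRing (fun l => chart k h (I l)) S ≤
        rangeG k h (I l0) (prodS k h I S.1) (isUnit_levi_prodS k h I hI l0 S.1)
          (prodS_mem k h I S.1) := by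
      refine iSup₂_le fun l hl' => Algebra.adjoin_le ?_
      rintro _ ⟨j, rfl⟩
      rw [SetLike.mem_coe, mem_rangeG]
      have h1 : lgen k h j * prodS k h I (S.1.erase l) ∈ lgrad k h (1 • S.1.card) := by
        have h2 := SetLike.mul_mem_graded (lgen_mem k h j) (prodS_mem k h I (S.1.erase l))
        rw [Finset.card_erase_of_mem hl'] at h2
        have h3 : 1 + (S.1.card - 1) = 1 • S.1.card := by
          have := Finset.card_pos.mpr ⟨l, hl'⟩
          rw [one_smul]
          omega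
        rwa [h3] at h2
      refine ⟨Away.mk (lgrad k h) (prodS_mem k h I S.1) 1 _ h1, ?_⟩
      rw [awayMapG_mk, pow_one, map_mul, levi_prodS, levi_prodS, levi_lgen,
        ← Finset.mul_prod_erase S.1 (fun l => h (I l) / h (I l0)) hl']
      have h4 : ∏ l' ∈ S.1.erase l, h (I l') / h (I l0) ≠ 0 :=
        Finset.prod_ne_zero_iff.mpr fun l _ => div_ne_zero (hI l) (hI l0)
      rw [mul_div_mul_right _ _ h4, div_div_div_cancel_right₀ (hI l0)]
    exact hle hx

theorem genι_eq_of_eq {i : ι} (hi : h i ≠ 0) {f g : lalg k h} {d e : ℕ} (hfg : f = lgen k h i * g)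
    (hf : f ∈ lgrad k h d) (hd : 0 < d) (hg : g ∈ lgrad k h e)
    (hu : IsUnit ((levi k h i : lalg k h →+* K) f)) :
    genι k h hi = Spec.map (CommRingCat.ofHom (awayMapG k h i f hu)) ≫
      Proj.awayι (lgrad k h) f hf hd := by
  subst hfg
  exact genι_eq_mul k h hi hg hu

theorem genι_eq_prodS (hI : ∀ l, h (I l) ≠ 0) {l0 : Lam} (S : BadRed.NF Lam) (hl : l0 ∈ S.1) :
    genι k h (hI l0) = Spec.map (CommRingCat.ofHom
      (awayMapG k h (I l0) (prodS k h I S.1) (isUnit_levi_prodS k h I hI l0 S.1))) ≫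
      Proj.awayι (lgrad k h) (prodS k h I S.1) (prodS_mem k h I S.1)
        (Finset.card_pos.mpr S.2) := by
  classical
  refine genι_eq_of_eq k h (hI l0) (g := prodS k h I (S.1.erase l0)) ?_ _ _
    (prodS_mem k h I (S.1.erase l0)) _
  exact (Finset.mul_prod_erase S.1 (fun l => lgen k h (I l)) hl).symm

theorem secPoint_injective' {K : Type} [CommRing K] {A : Type} [CommRing A] {σ : Type} [SetLike σ A]
    [AddSubgroupClass σ A] {𝒜 : ℕ → σ} [GradedRing 𝒜] (φ : Spec (.of K) ⟶ Proj 𝒜)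
    (U : (Proj 𝒜).Opens) (hU : ⊤ ≤ φ ⁻¹ᵁ U) {d : ℕ} {f : A} (hf : f ∈ 𝒜 d) (hd : 0 < d)
    (ψ : Away 𝒜 f →+* K) (hψ : Function.Injective ψ)
    (h1 : φ = Spec.map (CommRingCat.ofHom ψ) ≫ Proj.awayι 𝒜 f hf hd)
    (h2 : U = Proj.basicOpen 𝒜 f) : Function.Injective (secPoint φ U hU) := by
  subst h1 h2
  exact secPoint_injective hf hd ψ hU hψ

theorem secPoint_range' {K : Type} [Field K] {A : Type} [CommRing A] {σ : Type} [SetLike σ A]
    [AddSubgroupClass σ A] {𝒜 : ℕ → σ} [GradedRing 𝒜] (φ : Spec (.of K) ⟶ Proj 𝒜)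
    (U : (Proj 𝒜).Opens) (hU : ⊤ ≤ φ ⁻¹ᵁ U) {d : ℕ} {f : A} (hf : f ∈ 𝒜 d) (hd : 0 < d)
    (ψ : Away 𝒜 f →+* K)
    (h1 : φ = Spec.map (CommRingCat.ofHom ψ) ≫ Proj.awayι 𝒜 f hf hd)
    (h2 : U = Proj.basicOpen 𝒜 f) (x : K) : x ∈ (secPoint φ U hU).range ↔ ∃ a, ψ a = x := by
  subst h1 h2
  exact secPoint_range hf hd ψ hU x

theorem secPoint_scalars {X : Scheme.{0}} (f : X ⟶ Spec (.of k)) (φ : Spec (.of K) ⟶ X)
    (hφ : φ ≫ f = Spec.map (CommRingCat.ofHom (algebraMap k K))) (U : X.Opens)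
    (hU : ⊤ ≤ φ ⁻¹ᵁ U) (c : k) :
    secPoint φ U hU (BadRed.resTop (BadRed.scalars f c) U) = algebraMap k K c := by
  rw [BadRed.resTop, secPoint_res φ (U := ⊤) le_top hU le_top]
  have h1 := congrArg (fun t => (Scheme.ΓSpecIso (.of k)).inv ≫ t.appTop ≫
    (Scheme.ΓSpecIso (.of K)).hom) hφ
  simp only [Scheme.Hom.comp_appTop, Category.assoc] at h1
  rw [Scheme.ΓSpecIso_naturality, Iso.inv_hom_id_assoc] at h1
  have h2 : φ.appLE ⊤ ⊤ le_top = φ.appTop := (Scheme.Hom.app_eq_appLE (f := φ) (U := ⊤)).symm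
  have h3 : secPoint φ ⊤ le_top = (φ.appTop ≫ (Scheme.ΓSpecIso (.of K)).hom).hom := by
    rw [secPoint, h2]
  rw [h3]
  exact congrArg (fun t => t.hom c) h1

theorem charted (hI : ∀ l, h (I l) ≠ 0) [Nonempty Lam]
    (H : ∀ j, h j ≠ 0 → Ideal.span (Set.range fun c => chartElt k h j (I c)) = ⊤) :
    Nonempty (BadRed.Charted (PM.toSpec k h) (fun l => chart k h (I l))) := by
  classical
  obtain ⟨l1⟩ := ‹Nonempty Lam›
  have hg : ∀ (S : BadRed.NF Lam) (l0 : Lam) (hl : l0 ∈ S.1),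
      genι k h (hI l1) = Spec.map (CommRingCat.ofHom
      (awayMapG k h (I l0) (prodS k h I S.1) (isUnit_levi_prodS k h I hI l0 S.1))) ≫
      Proj.awayι (lgrad k h) (prodS k h I S.1) (prodS_mem k h I S.1)
        (Finset.card_pos.mpr S.2) := fun S l0 hl =>
    (genι_eq k h (hI l1) (hI l0)).trans (genι_eq_prodS k h I hI S hl)
  have hU : ∀ S : BadRed.NF Lam, ⊤ ≤ genι k h (hI l1) ⁻¹ᵁ
      BadRed.interV (fun l => PM.basicOpen k h (I l)) S := by
    intro S x _
    obtain ⟨l0, hl⟩ := S.2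
    rw [interV_eq, hg S l0 hl, Scheme.Hom.comp_preimage,
      ← Proj.opensRange_awayι (lgrad k h) (prodS k h I S.1) (prodS_mem k h I S.1)
        (Finset.card_pos.mpr S.2)]
    exact ⟨_, rfl⟩
  exact ⟨{
    V := fun l => PM.basicOpen k h (I l)
    cover := PM.iSup_basicOpen_of_span k h I H
    affine := fun S => by
      rw [interV_eq]
      exact Proj.isAffineOpen_basicOpen _ _ (prodS_mem k h I S.1) (Finset.card_pos.mpr S.2)
    phi := fun S => secPoint (genι k h (hI l1)) _ (hU S)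
    inj := fun S => by
      obtain ⟨l0, hl⟩ := S.2
      exact secPoint_injective' _ _ (hU S) _ _ _
        (awayMapG_injective k h _ _ _ (hI l0) (prodS_mem k h I S.1)) (hg S l0 hl)
        (interV_eq k h I S)
    range := fun S => by
      obtain ⟨l0, hl⟩ := S.2
      ext x
      exact (secPoint_range' _ _ (hU S) _ _ _ (hg S l0 hl) (interV_eq k h I S) x).trans
        (mem_range_awayMapG k h I hI S hl x)
    res := fun S T hST s => secPoint_res _ (hU S) (hU T) _ s
    alg := fun S c => secPoint_scalars k _ _ (genι_toSpec k h (hI l1)) _ (hU S) c }⟩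

end

end CG

end MP55c1e7
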