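import Mathlib

/-!
# The graded algebra `R[h_i T : i]` inside `K[T]`
-/

open Polynomial

universe u

namespace MP55c1e7

namespace CG

variable (R : Type u) {K : Type u} [CommRing R] [Field K] [Algebra R K] {ι : Type} (h : ι → K)

/-- The subalgebra `R[h_i T : i]` of `K[T]`. -/
noncomputable def lalg : Subalgebra R K[X] := Algebra.adjoin R (Set.range fun i => C (h i) * (X : K[X]))

/-- The element `h_i T`. -/
noncomputable def lgen (i : ι) : lalg R h := ⟨C (h i) * X, Algebra.subset_adjoin ⟨i, rfl⟩⟩

@[simp] theorem coe_lgen (i : ι) : (lgen R h i : K[X]) = C (h i) * X := rfl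

/-- The elements of `R[h_i T : i]` which are homogeneous of degree `d` in `T`. -/
noncomputable def lgrad (d : ℕ) : Submodule R (lalg R h) :=
  Submodule.comap (lalg R h).val.toLinearMap
    (LinearMap.range ((Polynomial.monomial d : K →ₗ[K] K[X]).restrictScalars R))

theorem mem_lgrad {d : ℕ} {x : lalg R h} :
    x ∈ lgrad R h d ↔ ∃ c : K, monomial d c = (x : K[X]) := Iff.rfl

theorem lgen_mem (i : ι) : lgen R h i ∈ lgrad R h 1 :=
  ⟨h i, by simp [C_mul_X_eq_monomial]⟩

theorem monomial_coeff_mem {x : K[X]} (hx : x ∈ lalg R h) (d : ℕ) :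
    monomial d (x.coeff d) ∈ lalg R h := by
  unfold lalg at hx
  induction hx using Algebra.adjoin_induction generalizing d with
  | mem x hx =>
    obtain ⟨i, rfl⟩ := hx
    beta_reduce
    rw [C_mul_X_eq_monomial, coeff_monomial]
    split_ifs with hd
    · subst hd
      rw [← C_mul_X_eq_monomial]
      exact (lgen R h i).2
    · simp
  | algebraMap r =>
    rw [IsScalarTower.algebraMap_apply R K K[X], ← C_eq_algebraMap, coeff_C]
    split_ifs with hd
    · subst hd
      rw [monomial_zero_left]
      exact (lalg R h).algebraMap_mem r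
    · simp
  | add x y hx hy h1 h2 =>
    rw [coeff_add, map_add]
    exact add_mem (h1 d) (h2 d)
  | mul x y hx hy h1 h2 =>
    rw [coeff_mul, map_sum]
    refine sum_mem fun p hp => ?_
    rw [← Finset.HasAntidiagonal.mem_antidiagonal.mp hp, ← monomial_mul_monomial]
    exact mul_mem (h1 _) (h2 _)

instance : SetLike.GradedMonoid (lgrad R h) where
  one_mem := ⟨1, by simp⟩
  mul_mem := by
    rintro i j x y ⟨a, ha⟩ ⟨b, hb⟩
    refine ⟨a * b, ?_⟩
    change monomial i a = (x : K[X]) at ha
    change monomial j b = (y : K[X]) at hb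
    change monomial (i + j) (a * b) = ((x * y : lalg R h) : K[X])
    rw [← monomial_mul_monomial, ha, hb]
    rfl

/-- The homogeneous component of degree `d`. -/
noncomputable def lproj (x : lalg R h) (d : ℕ) : lgrad R h d :=
  ⟨⟨monomial d ((x : K[X]).coeff d), monomial_coeff_mem R h x.2 d⟩, ⟨_, rfl⟩⟩

@[simp] theorem coe_lproj (x : lalg R h) (d : ℕ) :
    ((lproj R h x d : lalg R h) : K[X]) = monomial d ((x : K[X]).coeff d) := rfl

open DirectSum in
/-- The decomposition into homogeneous components. -/
noncomputable def ldec (x : lalg R h) : ⨁ d, lgrad R h d :=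
  ∑ d ∈ (x : K[X]).support, DirectSum.of (fun d => lgrad R h d) d (lproj R h x d)

theorem ldec_apply (x : lalg R h) (d : ℕ) : ldec R h x d = lproj R h x d := by
  classical
  rw [ldec, DirectSum.sum_apply]
  simp only [DirectSum.of_apply]
  by_cases hd : d ∈ (x : K[X]).support
  · rw [Finset.sum_eq_single d]
    · simp
    · intro b _ hb
      rw [dif_neg hb]
    · intro h1
      exact absurd hd h1
  · rw [Finset.sum_eq_zero]
    · apply Subtype.ext
      apply Subtype.ext
      rw [coe_lproj, notMem_support_iff.mp hd]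
      simp
    · intro b hb
      rw [dif_neg]
      rintro rfl
      exact hd hb

theorem coe_sum_ldec (x : lalg R h) :
    DirectSum.coeAddMonoidHom (lgrad R h) (ldec R h x) = x := by
  classical
  rw [ldec, map_sum]
  simp only [DirectSum.coeAddMonoidHom_of]
  apply Subtype.ext
  conv_rhs => rw [(x : K[X]).as_sum_support]
  rw [AddSubmonoidClass.coe_finsetSum]
  simp

theorem lproj_add (x y : lalg R h) (d : ℕ) :
    lproj R h (x + y) d = lproj R h x d + lproj R h y d := by
  apply Subtype.ext
  apply Subtype.ext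
  simp

theorem ldec_coe (z : DirectSum ℕ fun d => lgrad R h d) :
    ldec R h (DirectSum.coeAddMonoidHom (lgrad R h) z) = z := by
  classical
  refine DFinsupp.ext fun d => ?_
  rw [ldec_apply]
  induction z using DirectSum.induction_on with
  | zero =>
    apply Subtype.ext
    apply Subtype.ext
    simp
  | of i y =>
    rw [DirectSum.coeAddMonoidHom_of]
    obtain ⟨c, hc⟩ := y.2
    apply Subtype.ext
    apply Subtype.ext
    change monomial i c = ((y : lalg R h) : K[X]) at hc
    rw [coe_lproj, ← hc, coeff_monomial, DirectSum.of_apply]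
    split_ifs with hd
    · subst hd
      exact hc
    · simp
  | add x y hx hy =>
    rw [map_add, lproj_add, hx, hy]
    rfl

noncomputable instance : GradedAlgebra (lgrad R h) where
  decompose' := ldec R h
  left_inv := coe_sum_ldec R h
  right_inv := ldec_coe R h

/-- The chart ring `R[h_j / h_i : j]` inside `K`. -/
def chart (i : ι) : Subalgebra R K := Algebra.adjoin R (Set.range fun j => h j / h i)

/-- Evaluation `T ↦ 1 / h_i`. -/
noncomputable def levi (i : ι) : lalg R h →ₐ[R] K :=
  ((Polynomial.aeval (R := K) (h i)⁻¹).restrictScalars R).comp (lalg R h).val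

theorem levi_apply (i : ι) (x : lalg R h) : levi R h i x = (x : K[X]).eval (h i)⁻¹ := by
  simp [levi]

theorem levi_lgen (i j : ι) : levi R h i (lgen R h j) = h j / h i := by
  rw [levi_apply]
  simp [div_eq_mul_inv]

theorem levi_mem (i : ι) (x : lalg R h) : levi R h i x ∈ chart R h i := by
  have h1 : lalg R h ≤ (chart R h i).comap ((Polynomial.aeval (R := K) (h i)⁻¹).restrictScalars R) := by
    refine Algebra.adjoin_le ?_
    rintro _ ⟨j, rfl⟩
    refine Algebra.subset_adjoin ⟨j, ?_⟩
    simp [div_eq_mul_inv]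
  exact h1 x.2

theorem levi_inj {i : ι} (hi : h i ≠ 0) {d : ℕ} {x : lalg R h} (hx : x ∈ lgrad R h d)
    (h0 : levi R h i x = 0) : x = 0 := by
  obtain ⟨c, hc⟩ := hx
  change monomial d c = (x : K[X]) at hc
  rw [levi_apply, ← hc] at h0
  apply Subtype.ext
  have : c = 0 := by simpa [hi] using h0
  rw [← hc, this]
  simp

theorem isUnit_levi {i : ι} (hi : h i ≠ 0) :
    IsUnit ((levi R h i : lalg R h →+* K) (lgen R h i)) := by
  change IsUnit (levi R h i (lgen R h i))
  rw [levi_lgen R h, div_self hi]
  exact isUnit_one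

/-- For homogeneous `x` of degree `d` the leading coefficient is `levi i x * h_i ^ d`. -/
theorem levi_eq (i : ι) {d : ℕ} {x : lalg R h} (hx : x ∈ lgrad R h d) :
    levi R h i x = (x : K[X]).coeff d / h i ^ d := by
  obtain ⟨c, hc⟩ := hx
  change monomial d c = (x : K[X]) at hc
  rw [levi_apply, ← hc]
  simp [div_eq_mul_inv]

open HomogeneousLocalization in
/-- The map from a chart `D_+(f)` of `Proj` to `K`, given by the coordinate `i`. -/
noncomputable def awayMapG (i : ι) (f : lalg R h) (hf : IsUnit ((levi R h i : lalg R h →+* K) f)) :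
    Away (lgrad R h) f →+* K :=
  (IsLocalization.Away.lift (S := Localization.Away f) f hf).comp
    (algebraMap (Away (lgrad R h) f) _)

open HomogeneousLocalization in
theorem awayMapG_mk (i : ι) (f : lalg R h) (hf : IsUnit ((levi R h i : lalg R h →+* K) f))
    {d : ℕ} (hd : f ∈ lgrad R h d) (n : ℕ) (x : lalg R h) (hx : x ∈ lgrad R h (n • d)) :
    awayMapG R h i f hf (Away.mk (lgrad R h) hd n x hx) = levi R h i x / levi R h i f ^ n := by
  have h0 : levi R h i f ≠ 0 := hf.ne_zero
  rw [awayMapG, RingHom.comp_apply, HomogeneousLocalization.algebraMap_apply, Away.val_mk,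
    Localization.mk_eq_mk']
  rw [IsLocalization.Away.lift, IsLocalization.lift_mk'_spec]
  change levi R h i x = levi R h i (f ^ n) * (levi R h i x / levi R h i f ^ n)
  rw [map_pow, mul_div_cancel₀ _ (pow_ne_zero _ h0)]

open HomogeneousLocalization in
/-- The map from the chart of `Proj` to `K`. -/
noncomputable def awayMapK {i : ι} (hi : h i ≠ 0) : Away (lgrad R h) (lgen R h i) →+* K :=
  awayMapG R h i (lgen R h i) (isUnit_levi R h hi)

open HomogeneousLocalization in
theorem awayMapK_mk {i : ι} (hi : h i ≠ 0) (n : ℕ) (x : lalg R h) (hx : x ∈ lgrad R h (n • 1)) :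
    awayMapK R h hi (Away.mk (lgrad R h) (lgen_mem R h i) n x hx) = levi R h i x := by
  rw [awayMapK, awayMapG_mk, levi_lgen, div_self hi, one_pow, div_one]

open HomogeneousLocalization in
theorem awayMapK_injective {i : ι} (hi : h i ≠ 0) : Function.Injective (awayMapK R h hi) := by
  refine (injective_iff_map_eq_zero _).mpr fun z hz => ?_
  obtain ⟨n, x, hx, rfl⟩ := Away.mk_surjective (lgrad R h) (lgen_mem R h i) z
  rw [awayMapK_mk] at hz
  have h1 := levi_inj R h hi hx hz
  subst h1
  ext
  rw [Away.val_mk, Localization.mk_zero, HomogeneousLocalization.val_zero]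

open HomogeneousLocalization in
theorem awayMapK_mem {i : ι} (hi : h i ≠ 0) (z) : awayMapK R h hi z ∈ chart R h i := by
  obtain ⟨n, x, hx, rfl⟩ := Away.mk_surjective (lgrad R h) (lgen_mem R h i) z
  rw [awayMapK_mk]
  exact levi_mem R h i x

open HomogeneousLocalization in
theorem awayMapK_surj {i : ι} (hi : h i ≠ 0) {y : K} (hy : y ∈ chart R h i) :
    ∃ z, awayMapK R h hi z = y := by
  unfold chart at hy
  induction hy using Algebra.adjoin_induction with
  | mem x hx =>
    obtain ⟨j, rfl⟩ := hx
    exact ⟨Away.mk (lgrad R h) (lgen_mem R h i) 1 (lgen R h j) (by simpa using lgen_mem R h j),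
      by rw [awayMapK_mk, levi_lgen]⟩
  | algebraMap r =>
    refine ⟨Away.mk (lgrad R h) (lgen_mem R h i) 0 (algebraMap R _ r) ?_, ?_⟩
    · rw [zero_smul]
      refine ⟨algebraMap R K r, ?_⟩
      change monomial 0 (algebraMap R K r) = algebraMap R K[X] r
      rw [monomial_zero_left, IsScalarTower.algebraMap_apply R K K[X]]
      rfl
    · rw [awayMapK_mk]
      exact (levi R h i).commutes r
  | add x y hx hy h1 h2 =>
    obtain ⟨a, rfl⟩ := h1
    obtain ⟨b, rfl⟩ := h2
    exact ⟨a + b, map_add _ _ _⟩
  | mul x y hx hy h1 h2 =>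
    obtain ⟨a, rfl⟩ := h1
    obtain ⟨b, rfl⟩ := h2
    exact ⟨a * b, map_mul _ _ _⟩

open HomogeneousLocalization in
/-- The chart ring of `Proj` is `R[h_j / h_i : j]`. -/
noncomputable def awayEquiv {i : ι} (hi : h i ≠ 0) :
    Away (lgrad R h) (lgen R h i) ≃+* chart R h i :=
  RingEquiv.ofBijective ((awayMapK R h hi).codRestrict (chart R h i) (awayMapK_mem R h hi))
    ⟨fun _ _ hxy => awayMapK_injective R h hi (congrArg Subtype.val hxy),
      fun y => (awayMapK_surj R h hi y.2).imp fun _ hz => Subtype.ext hz⟩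

theorem coe_awayEquiv {i : ι} (hi : h i ≠ 0) (x) :
    ((awayEquiv R h hi x : chart R h i) : K) = awayMapK R h hi x := rfl

open HomogeneousLocalization in
theorem awayMapG_comp_awayMap {i j : ι} (hi : h i ≠ 0) (hj : h j ≠ 0)
    (hf : IsUnit ((levi R h i : lalg R h →+* K) (lgen R h i * lgen R h j))) :
    (awayMapG R h i (lgen R h i * lgen R h j) hf).comp
      (awayMap (lgrad R h) (lgen_mem R h j) rfl) = awayMapK R h hi := by
  refine RingHom.ext fun z => ?_
  obtain ⟨n, x, hx, rfl⟩ := Away.mk_surjective (lgrad R h) (lgen_mem R h i) z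
  rw [RingHom.comp_apply, awayMap_mk, awayMapG_mk, awayMapK_mk, map_mul, map_mul, map_pow,
    levi_lgen, levi_lgen, div_self hi, one_mul]
  rw [mul_div_assoc, div_self (pow_ne_zero _ (div_ne_zero hj hi)), mul_one]

open HomogeneousLocalization in
theorem awayMapG_comp_awayMap' {i j : ι} (hi : h i ≠ 0) (hj : h j ≠ 0)
    (hf : IsUnit ((levi R h i : lalg R h →+* K) (lgen R h i * lgen R h j))) :
    (awayMapG R h i (lgen R h i * lgen R h j) hf).comp
      (awayMap (lgrad R h) (lgen_mem R h i) (mul_comm _ _)) = awayMapK R h hj := by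
  refine RingHom.ext fun z => ?_
  obtain ⟨n, x, hx, rfl⟩ := Away.mk_surjective (lgrad R h) (lgen_mem R h j) z
  rw [RingHom.comp_apply, awayMap_mk, awayMapG_mk, awayMapK_mk, map_mul, map_mul, map_pow,
    levi_lgen, levi_lgen, div_self hi, one_mul, one_pow, mul_one, levi_eq R h i hx,
    levi_eq R h j hx]
  simp only [smul_eq_mul, mul_one, div_pow]
  field_simp

end CG

end MP55c1e7
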