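import Mathlib

/-!
# A surjective homomorphism of graded rings induces a closed immersion of `Proj`
-/

open CategoryTheory AlgebraicGeometry HomogeneousLocalization

universe u

namespace MP55c1e7

namespace CG

variable {A B σ τ : Type u} [CommRing A] [SetLike σ A] [AddSubgroupClass σ A]
  [CommRing B] [SetLike τ B] [AddSubgroupClass τ B]
  {𝒜 : ℕ → σ} {ℬ : ℕ → τ} [GradedRing 𝒜] [GradedRing ℬ]

theorem irrelevant_le_map_of_surj (f : 𝒜 →+*ᵍ ℬ)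
    (hs : ∀ d, ∀ y ∈ ℬ d, ∃ x ∈ 𝒜 d, f x = y) :
    HomogeneousIdeal.irrelevant ℬ ≤ (HomogeneousIdeal.irrelevant 𝒜).map f := by
  change (HomogeneousIdeal.irrelevant ℬ).toIdeal ≤ ((HomogeneousIdeal.irrelevant 𝒜).map f).toIdeal
  refine (HomogeneousIdeal.toIdeal_irrelevant_le _).mpr fun i hi y hy => ?_
  obtain ⟨x, hx, rfl⟩ := hs i y hy
  refine Ideal.mem_map_of_mem f ?_
  exact (HomogeneousIdeal.toIdeal_irrelevant_le 𝒜).mp le_rfl i hi hx

theorem away_map_surjective (f : 𝒜 →+*ᵍ ℬ)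
    (hs : ∀ d, ∀ y ∈ ℬ d, ∃ x ∈ 𝒜 d, f x = y) {d : ℕ} (s : A) (hd : s ∈ 𝒜 d) :
    Function.Surjective (Away.map f s) := by
  intro z
  obtain ⟨n, a, ha, rfl⟩ := Away.mk_surjective ℬ (f.map_mem hd) z
  obtain ⟨x, hx, hxa⟩ := hs _ a ha
  refine ⟨Away.mk 𝒜 hd n x hx, ?_⟩
  rw [Away.map_mk]
  congr 1

theorem isPullback_awayι (f : 𝒜 →+*ᵍ ℬ)
    (hf : HomogeneousIdeal.irrelevant ℬ ≤ (HomogeneousIdeal.irrelevant 𝒜).map f)
    {d : ℕ} (hd : 0 < d) (s : A) (hs : s ∈ 𝒜 d) :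
    IsPullback (Spec.map (CommRingCat.ofHom (Away.map f s)))
      (Proj.awayι ℬ (f s) (f.map_mem hs) hd) (Proj.awayι 𝒜 s hs hd) (Proj.map f hf) := by
  refine IsOpenImmersion.isPullback _ _ _ _ (Proj.awayι_comp_map f hf hd s hs) ?_
  rw [Proj.opensRange_awayι, Proj.opensRange_awayι, Proj.map_preimage_basicOpen]

theorem isClosedImmersion_map_aux (f : 𝒜 →+*ᵍ ℬ)
    (hs : ∀ d, ∀ y ∈ ℬ d, ∃ x ∈ 𝒜 d, f x = y)
    (hf : HomogeneousIdeal.irrelevant ℬ ≤ (HomogeneousIdeal.irrelevant 𝒜).map f)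
    {d : ℕ} (hd : 0 < d) (s : A) (hsd : s ∈ 𝒜 d) :
    IsClosedImmersion (Limits.pullback.snd (Proj.map f hf) (Proj.awayι 𝒜 s hsd hd)) := by
  have h1 := isPullback_awayι f hf hd s hsd
  have h2 : IsClosedImmersion (Spec.map (CommRingCat.ofHom (Away.map f s))) :=
    IsClosedImmersion.spec_of_surjective _ (away_map_surjective f hs _ hsd)
  have h3 : Limits.pullback.snd (Proj.map f hf) (Proj.awayι 𝒜 s hsd hd) =
      h1.flip.isoPullback.inv ≫ Spec.map (CommRingCat.ofHom (Away.map f s)) := by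
    rw [Iso.eq_inv_comp]
    exact h1.flip.isoPullback_hom_snd
  rw [h3]
  exact IsClosedImmersion.comp _ _

theorem isClosedImmersion_map (f : 𝒜 →+*ᵍ ℬ)
    (hs : ∀ d, ∀ y ∈ ℬ d, ∃ x ∈ 𝒜 d, f x = y)
    (hf : HomogeneousIdeal.irrelevant ℬ ≤ (HomogeneousIdeal.irrelevant 𝒜).map f) :
    IsClosedImmersion (Proj.map f hf) :=
  (IsZariskiLocalAtTarget.iff_of_openCover (P := @IsClosedImmersion)
    (Proj.affineOpenCover 𝒜).openCover).mpr
    fun s => isClosedImmersion_map_aux f hs hf s.1.2 _ s.2.2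

end CG

end MP55c1e7
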