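import Mathlib
import Pool.Agent.Lib.MP_55c1e7_ag.CG.ProjSurj

/-!
# Charts of `Proj` of a graded algebra over `R`
-/

open CategoryTheory AlgebraicGeometry HomogeneousLocalization

universe u

namespace MP55c1e7

/-- The structure morphism of `Proj` of a graded algebra over `R`. -/
noncomputable def projToSpec (R : Type u) [CommRing R] {A : Type u} [CommRing A] [Algebra R A]
    (𝒜 : ℕ → Submodule R A) [GradedAlgebra 𝒜] : Proj 𝒜 ⟶ Spec (.of R) :=
  Proj.toSpecZero 𝒜 ≫ Spec.map (CommRingCat.ofHom (algebraMap R (𝒜 0)))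

attribute [local instance] MvPolynomial.gradedAlgebra

/-- Projective space `ℙ^n` over `R`. -/
noncomputable def PSpace (n : ℕ) (R : Type u) [CommRing R] : Scheme.{u} :=
  Proj (MvPolynomial.homogeneousSubmodule (Fin (n + 1)) R)

/-- The structure morphism of projective space. -/
noncomputable def PSpace.toSpec (n : ℕ) (R : Type u) [CommRing R] :
    PSpace n R ⟶ Spec (.of R) :=
  projToSpec R (MvPolynomial.homogeneousSubmodule (Fin (n + 1)) R)

namespace CG

section ring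

variable {A : Type u} {σ : Type*} [CommRing A] [SetLike σ A] [AddSubgroupClass σ A]
  {𝒜 : ℕ → σ} [GradedRing 𝒜]

theorem point_eq_of_awayMap {K : Type u} [CommRing K] {d e : ℕ} {f g : A} (hf : f ∈ 𝒜 d)
    (hg : g ∈ 𝒜 e) (hd : 0 < d) (he : 0 < e) (φ : Away 𝒜 f →+* K) (χ : Away 𝒜 g →+* K)
    (ψ : Away 𝒜 (f * g) →+* K) (h1 : ψ.comp (awayMap 𝒜 hg rfl) = φ)
    (h2 : ψ.comp (awayMap 𝒜 hf (mul_comm _ _)) = χ) :
    Spec.map (CommRingCat.ofHom φ) ≫ Proj.awayι 𝒜 f hf hd =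
      Spec.map (CommRingCat.ofHom χ) ≫ Proj.awayι 𝒜 g hg he := by
  have e1 := Proj.SpecMap_awayMap_awayι 𝒜 hf hd hg (x := f * g) rfl
  have e2 := Proj.SpecMap_awayMap_awayι 𝒜 hg he hf (x := f * g) (mul_comm _ _)
  rw [← h1, ← h2, CommRingCat.ofHom_comp, CommRingCat.ofHom_comp, Spec.map_comp, Spec.map_comp,
    Category.assoc, Category.assoc, e1, e2]
  congr 1

variable {B : Type u} [CommRing B]

/-- A chart of `Proj` given by a ring isomorphic to the homogeneous localisation. -/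
noncomputable def achart {d : ℕ} {f : A} (hf : f ∈ 𝒜 d) (hd : 0 < d) (e : Away 𝒜 f ≃+* B) :
    Spec (.of B) ⟶ Proj 𝒜 :=
  Spec.map (CommRingCat.ofHom (e : Away 𝒜 f →+* B)) ≫ Proj.awayι 𝒜 f hf hd

theorem isIso_specMap_ofEquiv {A' B' : Type u} [CommRing A'] [CommRing B'] (e : A' ≃+* B') :
    IsIso (Spec.map (CommRingCat.ofHom (e : A' →+* B'))) := by
  have h1 : IsIso (CommRingCat.ofHom (e : A' →+* B')) := e.toCommRingCatIso.isIso_hom
  infer_instance

instance achart_isOpenImmersion {d : ℕ} {f : A} (hf : f ∈ 𝒜 d) (hd : 0 < d)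
    (e : Away 𝒜 f ≃+* B) : IsOpenImmersion (achart hf hd e) := by
  have h1 := isIso_specMap_ofEquiv e
  exact IsOpenImmersion.comp _ _

theorem achart_opensRange {d : ℕ} {f : A} (hf : f ∈ 𝒜 d) (hd : 0 < d)
    (e : Away 𝒜 f ≃+* B) : (achart hf hd e).opensRange = Proj.basicOpen 𝒜 f := by
  have h1 := isIso_specMap_ofEquiv e
  rw [← Proj.opensRange_awayι 𝒜 f hf hd]
  exact Scheme.Hom.opensRange_comp_of_isIso _ _

theorem achart_preimage_basicOpen {d : ℕ} {f : A} (hf : f ∈ 𝒜 d) (hd : 0 < d)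
    (e : Away 𝒜 f ≃+* B) {m : ℕ} {g : A} (hg : g ∈ 𝒜 m) (hm : 0 < m) :
    achart hf hd e ⁻¹ᵁ Proj.basicOpen 𝒜 g =
      PrimeSpectrum.basicOpen (e (Away.isLocalizationElem hf hg)) := by
  rw [achart, Scheme.Hom.comp_preimage, Proj.awayι_preimage_basicOpen 𝒜 hf hd hg hm]
  rfl

theorem achart_preimage_basicOpen_one {f : A} (hf : f ∈ 𝒜 1)
    (e : Away 𝒜 f ≃+* B) {g : A} (hg : g ∈ 𝒜 1) :
    achart hf one_pos e ⁻¹ᵁ Proj.basicOpen 𝒜 g =
      PrimeSpectrum.basicOpen (e (Away.mk 𝒜 hf 1 g (by simpa using hg))) := by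
  have h2 : Away.isLocalizationElem hf hg = Away.mk 𝒜 hf 1 g (by simpa using hg) := by
    ext
    simp [Away.val_mk]
  rw [achart_preimage_basicOpen hf one_pos e hg one_pos, h2]

end ring

section projToSpec

variable (R : Type u) [CommRing R] {A B : Type u} [CommRing A] [Algebra R A]
    (𝒜 : ℕ → Submodule R A) [GradedAlgebra 𝒜] [CommRing B] [Algebra R B]
    (ℬ : ℕ → Submodule R B) [GradedAlgebra ℬ]

theorem awayι_projToSpec {d : ℕ} (hd : 0 < d) {f : A} (hf : f ∈ 𝒜 d) :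
    Proj.awayι 𝒜 f hf hd ≫ projToSpec R 𝒜 =
      Spec.map (CommRingCat.ofHom ((fromZeroRingHom 𝒜 (Submonoid.powers f)).comp
        (algebraMap R (𝒜 0)))) := by
  rw [projToSpec, Proj.awayι_toSpecZero_assoc, ← Spec.map_comp, ← CommRingCat.ofHom_comp]

variable {C : Type u} [CommRing C] [Algebra R C]

theorem achart_projToSpec {d : ℕ} (hd : 0 < d) {f : A} (hf : f ∈ 𝒜 d) (e : Away 𝒜 f ≃+* C)
    (he : ∀ r : R, e (Away.mk 𝒜 hf 0 (algebraMap R A r)
      (by rw [zero_smul]; exact SetLike.algebraMap_mem_graded 𝒜 r)) = algebraMap R C r) :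
    achart hf hd e ≫ projToSpec R 𝒜 = Spec.map (CommRingCat.ofHom (algebraMap R C)) := by
  rw [achart, Category.assoc, awayι_projToSpec, ← Spec.map_comp, ← CommRingCat.ofHom_comp]
  congr 2
  refine RingHom.ext fun r => ?_
  rw [← he r]
  change e _ = e _
  congr 1
  ext
  simp [fromZeroRingHom]

end projToSpec

end CG

end MP55c1e7
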