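import Mathlib
import Pool.Agent.Lib.MP_55c1e7_ag.CG.ProjChart
import Pool.Agent.Lib.MP_55c1e7_ag.CG.GrAlg

/-!
# The projective model `P_R(h) = Proj R[h_i T : i]`
-/

open Polynomial CategoryTheory AlgebraicGeometry HomogeneousLocalization

universe u

namespace MP55c1e7

namespace CG

variable (R : Type u) {K : Type u} [CommRing R] [Field K] [Algebra R K] {ι : Type} (h : ι → K)

/-- The projective model with homogeneous coordinates `h`. -/
noncomputable abbrev PM : Scheme.{u} := Proj (lgrad R h)

/-- The structure morphism of the projective model. -/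
noncomputable def PM.toSpec : PM R h ⟶ Spec (.of R) := projToSpec R (lgrad R h)

/-- The open subset `D_+(h_i)` of the projective model. -/
noncomputable def PM.basicOpen (i : ι) : (PM R h).Opens := Proj.basicOpen (lgrad R h) (lgen R h i)

variable {h} in
/-- The chart `Spec R[h_j / h_i : j]` of the projective model. -/
noncomputable def chartι {i : ι} (hi : h i ≠ 0) : Spec (.of (chart R h i)) ⟶ PM R h :=
  achart (lgen_mem R h i) one_pos (awayEquiv R h hi)

variable {h} in
instance chartι_isOpenImmersion {i : ι} (hi : h i ≠ 0) : IsOpenImmersion (chartι R hi) :=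
  achart_isOpenImmersion _ _ _

variable {h} in
theorem chartι_opensRange {i : ι} (hi : h i ≠ 0) :
    (chartι R hi).opensRange = PM.basicOpen R h i :=
  achart_opensRange _ _ _

variable {h} in
theorem chartι_toSpec {i : ι} (hi : h i ≠ 0) :
    chartι R hi ≫ PM.toSpec R h = Spec.map (CommRingCat.ofHom (algebraMap R (chart R h i))) :=
  achart_projToSpec R (lgrad R h) one_pos (lgen_mem R h i) (awayEquiv R h hi) fun r => by
    apply Subtype.ext
    rw [coe_awayEquiv, awayMapK_mk]
    exact (levi R h i).commutes r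

/-- The point of the model with values in `K`. -/
noncomputable def genι {i : ι} (hi : h i ≠ 0) : Spec (.of K) ⟶ PM R h :=
  Spec.map (CommRingCat.ofHom (algebraMap (chart R h i) K)) ≫ chartι R hi

theorem genι_eq_awayι {i : ι} (hi : h i ≠ 0) :
    genι R h hi = Spec.map (CommRingCat.ofHom (awayMapK R h hi)) ≫
      Proj.awayι (lgrad R h) (lgen R h i) (lgen_mem R h i) one_pos := by
  have h1 : awayMapK R h hi = (algebraMap (chart R h i) K).comp
    (awayEquiv R h hi : Away (lgrad R h) (lgen R h i) →+* chart R h i) := rfl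
  rw [h1, genι, chartι, achart, ← Category.assoc, ← Spec.map_comp, ← CommRingCat.ofHom_comp]

theorem genι_eq {i j : ι} (hi : h i ≠ 0) (hj : h j ≠ 0) : genι R h hi = genι R h hj := by
  have hf : IsUnit ((levi R h i : lalg R h →+* K) (lgen R h i * lgen R h j)) := by
    change IsUnit (levi R h i (lgen R h i * lgen R h j))
    rw [map_mul, levi_lgen, levi_lgen, div_self hi, one_mul]
    exact (div_ne_zero hj hi).isUnit
  rw [genι_eq_awayι, genι_eq_awayι]
  exact point_eq_of_awayMap (lgen_mem R h i) (lgen_mem R h j) one_pos one_pos _ _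
    (awayMapG R h i (lgen R h i * lgen R h j) hf)
    (awayMapG_comp_awayMap R h hi hj hf) (awayMapG_comp_awayMap' R h hi hj hf)

/-- `h_j / h_i` as an element of the chart ring. -/
def chartElt (i j : ι) : chart R h i := ⟨h j / h i, Algebra.subset_adjoin ⟨j, rfl⟩⟩

variable {h} in
theorem chartι_preimage_basicOpen {i : ι} (hi : h i ≠ 0) (j : ι) :
    chartι R hi ⁻¹ᵁ PM.basicOpen R h j = PrimeSpectrum.basicOpen (chartElt R h i j) := by
  have h1 : awayEquiv R h hi (Away.mk (lgrad R h) (lgen_mem R h i) 1 (lgen R h j)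
      (by simpa using lgen_mem R h j)) = chartElt R h i j := by
    apply Subtype.ext
    rw [coe_awayEquiv, awayMapK_mk, levi_lgen]
    rfl
  rw [← h1]
  exact achart_preimage_basicOpen_one (lgen_mem R h i) (awayEquiv R h hi) (lgen_mem R h j)

theorem PM.basicOpen_eq_bot {i : ι} (hi : h i = 0) : PM.basicOpen R h i = ⊥ := by
  have : lgen R h i = 0 := by
    apply Subtype.ext
    simp [hi]
  rw [PM.basicOpen, this]
  exact Proj.basicOpen_zero _

theorem adjoin_lgen : Algebra.adjoin R (Set.range (lgen R h)) = ⊤ := by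
  have h1 := Algebra.adjoin_adjoin_coe_preimage
    (R := R) (s := Set.range fun i => C (h i) * (X : K[X]))
  have h2 : Set.range (lgen R h) =
      ((↑) : lalg R h → K[X]) ⁻¹' (Set.range fun i => C (h i) * (X : K[X])) := by
    ext x
    constructor
    · rintro ⟨i, rfl⟩
      exact ⟨i, rfl⟩
    · rintro ⟨i, hi⟩
      exact ⟨i, Subtype.ext hi⟩
  rw [h2]
  exact h1

theorem PM.iSup_basicOpen : ⨆ i, PM.basicOpen R h i = ⊤ := by
  refine Proj.iSup_basicOpen_eq_top' (lgrad R h) (lgen R h) (fun i => ⟨1, lgen_mem R h i⟩) ?_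
  refine top_le_iff.mp fun x _ => ?_
  have hx : x ∈ Algebra.adjoin R (Set.range (lgen R h)) := by
    rw [adjoin_lgen]
    trivial
  induction hx using Algebra.adjoin_induction with
  | mem x hx => exact Algebra.subset_adjoin hx
  | algebraMap r =>
    exact (Algebra.adjoin (lgrad R h 0) (Set.range (lgen R h))).algebraMap_mem
      (algebraMap R (lgrad R h 0) r)
  | add x y hx hy h1 h2 => exact add_mem (h1 trivial) (h2 trivial)
  | mul x y hx hy h1 h2 => exact mul_mem (h1 trivial) (h2 trivial)

/-- Every point lies in a chart. -/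
theorem PM.exists_chart (x : PM R h) : ∃ (j : ι) (hj : h j ≠ 0) (y : Spec (.of (chart R h j))),
    chartι R hj y = x := by
  have hx : x ∈ ⨆ i, PM.basicOpen R h i := by
    rw [PM.iSup_basicOpen]
    trivial
  obtain ⟨j, hj⟩ := TopologicalSpace.Opens.mem_iSup.mp hx
  have hj0 : h j ≠ 0 := by
    intro h0
    rw [PM.basicOpen_eq_bot R h h0] at hj
    exact hj
  rw [← chartι_opensRange R hj0] at hj
  obtain ⟨y, hy⟩ := hj
  exact ⟨j, hj0, y, hy⟩

/-- Cover criterion. -/
theorem PM.iSup_basicOpen_of_span {κ : Type} (I : κ → ι)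
    (H : ∀ j, h j ≠ 0 → Ideal.span (Set.range fun c => chartElt R h j (I c)) = ⊤) :
    ⨆ c, PM.basicOpen R h (I c) = ⊤ := by
  refine top_le_iff.mp fun x _ => ?_
  obtain ⟨j, hj, y, rfl⟩ := PM.exists_chart R h x
  have h1 : ∃ c, chartElt R h j (I c) ∉ y.asIdeal := by
    by_contra hc
    push Not at hc
    refine y.isPrime.ne_top (top_le_iff.mp ?_)
    rw [← H j hj, Ideal.span_le]
    rintro _ ⟨c, rfl⟩
    exact hc c
  obtain ⟨c, hc⟩ := h1
  refine TopologicalSpace.Opens.mem_iSup.mpr ⟨c, ?_⟩
  change y ∈ chartι R hj ⁻¹ᵁ PM.basicOpen R h (I c)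
  rw [chartι_preimage_basicOpen]
  exact hc

/-- The affine open cover by the charts `I c`. -/
noncomputable def PM.cover {κ : Type} (I : κ → ι) (hI : ∀ c, h (I c) ≠ 0)
    (H : ∀ j, h j ≠ 0 → Ideal.span (Set.range fun c => chartElt R h j (I c)) = ⊤) :
    (PM R h).AffineOpenCover where
  I₀ := κ
  X c := .of (chart R h (I c))
  f c := chartι R (hI c)
  idx x := ((TopologicalSpace.Opens.mem_iSup.mp
    ((PM.iSup_basicOpen_of_span R h I H).ge (Set.mem_univ x)))).choose
  covers x := by
    change x ∈ (chartι R _).opensRange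
    rw [chartι_opensRange]
    exact ((TopologicalSpace.Opens.mem_iSup.mp
      ((PM.iSup_basicOpen_of_span R h I H).ge (Set.mem_univ x)))).choose_spec

end CG

end MP55c1e7
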