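import Pool.Agent.Lib.MP_55c1e7_ag.CG.Model
import Pool.Agent.Lib.MP_55c1e7_ag.Defs

/-!
# The projective model is separated and projective
-/

open Polynomial CategoryTheory AlgebraicGeometry HomogeneousLocalization

universe u

namespace MP55c1e7

namespace CG

section map

variable (R : Type u) [CommRing R] {A B : Type u} [CommRing A] [Algebra R A]
    {𝒜 : ℕ → Submodule R A} [GradedAlgebra 𝒜] [CommRing B] [Algebra R B]
    {ℬ : ℕ → Submodule R B} [GradedAlgebra ℬ]

theorem isSeparated_projToSpec : IsSeparated (projToSpec R 𝒜) := by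
  unfold projToSpec
  infer_instance

theorem map_projToSpec_aux (f : 𝒜 →+*ᵍ ℬ)
    (hf : HomogeneousIdeal.irrelevant ℬ ≤ (HomogeneousIdeal.irrelevant 𝒜).map f)
    (hR : ∀ r : R, f (algebraMap R A r) = algebraMap R B r) {d : ℕ} (hd : 0 < d) (s : A)
    (hs : s ∈ 𝒜 d) :
    Proj.awayι ℬ (f s) (f.map_mem hs) hd ≫ Proj.map f hf ≫ projToSpec R 𝒜 =
      Proj.awayι ℬ (f s) (f.map_mem hs) hd ≫ projToSpec R ℬ := by
  rw [← Category.assoc, Proj.awayι_comp_map f hf hd s hs, Category.assoc,
    awayι_projToSpec, awayι_projToSpec, ← Spec.map_comp, ← CommRingCat.ofHom_comp]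
  congr 2
  refine RingHom.ext fun r => ?_
  have h1 : (fromZeroRingHom 𝒜 (Submonoid.powers s)) (algebraMap R (𝒜 0) r) =
      Away.mk 𝒜 hs 0 (algebraMap R A r)
        (by rw [zero_smul]; exact SetLike.algebraMap_mem_graded 𝒜 r) := by
    ext
    simp [fromZeroRingHom]
  change Away.map f s ((fromZeroRingHom 𝒜 (Submonoid.powers s)) (algebraMap R (𝒜 0) r)) = _
  rw [h1, Away.map_mk]
  ext
  simp [fromZeroRingHom, hR]

theorem map_projToSpec (f : 𝒜 →+*ᵍ ℬ)
    (hf : HomogeneousIdeal.irrelevant ℬ ≤ (HomogeneousIdeal.irrelevant 𝒜).map f)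
    (hR : ∀ r : R, f (algebraMap R A r) = algebraMap R B r) :
    Proj.map f hf ≫ projToSpec R 𝒜 = projToSpec R ℬ :=
  (Proj.mapAffineOpenCover f hf).openCover.hom_ext _ _
    fun s => map_projToSpec_aux R f hf hR s.1.2 _ s.2.2

end map

variable (R : Type u) {K : Type u} [CommRing R] [Field K] [Algebra R K] {ι : Type} (h : ι → K)

theorem PM.isSeparated : IsSeparated (PM.toSpec R h) := isSeparated_projToSpec R

section mv

variable {σ : Type} (e : σ → ι)

attribute [local instance] MvPolynomial.gradedAlgebra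

/-- The homomorphism `R[x_s] → R[h_i T]`, `x_s ↦ h_{e s} T`. -/
noncomputable def mvHom : MvPolynomial σ R →ₐ[R] lalg R h :=
  MvPolynomial.aeval fun s => lgen R h (e s)

theorem mvHom_mem {d : ℕ} {p : MvPolynomial σ R}
    (hp : p ∈ MvPolynomial.homogeneousSubmodule σ R d) : mvHom R h e p ∈ lgrad R h d := by
  rw [p.as_sum, map_sum]
  refine sum_mem fun m hm => ?_
  rw [mvHom, MvPolynomial.aeval_monomial, ← Algebra.smul_def]
  refine Submodule.smul_mem _ _ ?_
  have h1 := SetLike.prod_pow_mem_graded (lgrad R h) (F := m.support)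
    (fun _ => 1) (g := fun s => lgen R h (e s)) m (fun s _ => lgen_mem R h (e s))
  have h2 : ∑ k ∈ m.support, m k • 1 = d := by
    rw [((MvPolynomial.mem_homogeneousSubmodule _ _).mp hp).degree_eq_sum_deg_support hm]
    simp
  rw [h2] at h1
  exact h1

theorem mvHom_surjective (he : Function.Surjective e) : Function.Surjective (mvHom R h e) := by
  rw [← AlgHom.range_eq_top, mvHom, ← Algebra.adjoin_range_eq_range_aeval, ← adjoin_lgen R h]
  congr 1
  exact he.range_comp (lgen R h)

/-- The homomorphism of graded rings. -/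
noncomputable def mvGr : MvPolynomial.homogeneousSubmodule σ R →+*ᵍ lgrad R h where
  __ := (mvHom R h e).toRingHom
  map_mem := mvHom_mem R h e

theorem mvGr_surjective (he : Function.Surjective e) (d : ℕ) (y : lalg R h)
    (hy : y ∈ lgrad R h d) :
    ∃ x ∈ MvPolynomial.homogeneousSubmodule σ R d, mvGr R h e x = y := by
  obtain ⟨p, hp⟩ := mvHom_surjective R h e he y
  refine ⟨DirectSum.decompose (MvPolynomial.homogeneousSubmodule σ R) p d, SetLike.coe_mem _, ?_⟩
  rw [GradedRingHom.map_directSumDecompose]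
  change ((DirectSum.decompose (lgrad R h) (mvHom R h e p) d : lgrad R h d) : lalg R h) = y
  rw [hp, DirectSum.decompose_of_mem_same _ hy]

end mv

attribute [local instance] MvPolynomial.gradedAlgebra in
theorem PM.exists_closedImmersion {n : ℕ} (e : Fin (n + 1) → ι) (he : Function.Surjective e) :
    ∃ f : PM R h ⟶ PSpace n R, IsClosedImmersion f ∧ f ≫ PSpace.toSpec n R = PM.toSpec R h :=
  ⟨Proj.map (mvGr R h e) (irrelevant_le_map_of_surj _ (mvGr_surjective R h e he)),
    isClosedImmersion_map _ (mvGr_surjective R h e he) _,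
    map_projToSpec R _ _ fun r => (mvHom R h e).commutes r⟩

end CG

open CG in
theorem isProjective_PM (R : Type) {K : Type} [CommRing R] [Field K] [Algebra R K] {ι : Type}
    [Finite ι] [Nonempty ι] (h : ι → K) : BadRed.IsProjective (PM.toSpec R h) := by
  have := Fintype.ofFinite ι
  obtain ⟨n, hn⟩ : ∃ n, Fintype.card ι = n + 1 :=
    Nat.exists_eq_succ_of_ne_zero Fintype.card_ne_zero
  let e : Fin (n + 1) ≃ ι := (finCongr hn.symm).trans (Fintype.equivFin ι).symm
  exact ⟨n, PM.exists_closedImmersion R h e e.surjective⟩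

end MP55c1e7
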